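import Mathlib
import Pool.Agent.Helper18.Grothendieck

set_option autoImplicit false

namespace Pool.Agent.Results.MP_0f8365_gt.ProductCountable

open Pool.Agent.Helper18.Grothendieck

universe u v

/-- If `X` is a (Tychonoff) Grothendieck space and `Y` a countable (Tychonoff) space, then `X × Y`
is a Grothendieck space, and in particular weakly Grothendieck. -/
theorem result (X : Type u) (Y : Type v) [TopologicalSpace X] [TopologicalSpace Y]
    [T35Space X] [T35Space Y] [Countable Y] (h : IsGrothendieck X) :
    IsGrothendieck (X × Y) ∧ IsWeaklyGrothendieck (X × Y) :=
  ⟨prod_countable h, gspace_of_hered (prod_countable h)⟩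

end Pool.Agent.Results.MP_0f8365_gt.ProductCountable
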